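import Mathlib
import Pool.Agent.U426.TU.Stm

/-!
# Project TU, package CH: left ideals of the icosian order have a norm.

For a left ideal `J` of `O` of finite index let `c` be a totally positive generator of the ideal of
`R` generated by the norms of the elements of `J`.  Then `J star J ⊆ c O` (self-duality), and if
`x star y ∈ c O` for all `y ∈ J` then `x ∈ J` (write `c = ∑ rᵢ star yᵢ yᵢ`).  So `O / J` embeds into
the character group of `J / c O`, whence `[O : J] ≤ [J : c O]` and `[O : J]² ≤ [O : c O] ≤ nm(c)⁴`.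
-/

set_option autoImplicit false

namespace Pool.Agent.U851.TU.CH

open Pool.Agent.U426.TU

/-- the subgroup `c O` -/
noncomputable def cO (c : K) : AddSubgroup HK where
  carrier := {x | ∃ z ∈ OI, x = c • z}
  add_mem' := by
    rintro _ _ ⟨z, hz, rfl⟩ ⟨w, hw, rfl⟩
    exact ⟨z + w, OI.add_mem hz hw, by rw [smul_add]⟩
  zero_mem' := ⟨0, OI.zero_mem, by rw [smul_zero]⟩
  neg_mem' := by
    rintro _ ⟨z, hz, rfl⟩
    exact ⟨-z, OI.neg_mem hz, by rw [smul_neg]⟩

theorem lam_add (x y : K) : lam (x + y) = lam x + lam y := by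
  rw [← mkK_eta x, ← mkK_eta y, mkK_add]
  simp only [lam, c0_mk, c1_mk, c2_mk, c3_mk]
  ring

theorem lam_zero : lam 0 = 0 := by
  rw [← mkK_zero]; simp [lam]

theorem lam_neg (x : K) : lam (-x) = - lam x := by
  have := lam_add x (-x)
  rw [add_neg_cancel, lam_zero] at this
  linarith

theorem lam_sub (x y : K) : lam (x - y) = lam x - lam y := by
  rw [sub_eq_add_neg, lam_add, lam_neg]; ring

theorem lam_int {x : K} (hx : x ∈ R) : ∃ n : ℤ, lam x = n := by
  obtain ⟨a, b, c, d, rfl⟩ := hx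
  exact ⟨a + b + c + d, by simp [lam]⟩

theorem mem_R_of_coords {x : K} (a b c d : ℤ) (h0 : c0 x = a) (h1 : c1 x = b) (h2 : c2 x = c)
    (h3 : c3 x = d) : x ∈ R := ⟨a, b, c, d, by rw [← mkK_eta x, h0, h1, h2, h3]⟩

/-- `lam` generates the dual of `R` -/
theorem lam_dual {t : K} (h : ∀ r ∈ R, ∃ n : ℤ, lam (r * t) = n) : t ∈ R := by
  obtain ⟨n1, h1⟩ := h 1 R.one_mem
  obtain ⟨n2, h2⟩ := h (mkK 0 1 0 0) ⟨0, 1, 0, 0, by push_cast; rfl⟩
  obtain ⟨n3, h3⟩ := h (mkK 0 0 1 0) ⟨0, 0, 1, 0, by push_cast; rfl⟩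
  obtain ⟨n4, h4⟩ := h (mkK 0 0 0 1) ⟨0, 0, 0, 1, by push_cast; rfl⟩
  rw [one_mul] at h1
  rw [← mkK_eta t, mkK_mul] at h2 h3 h4
  simp only [lam, c0_mk, c1_mk, c2_mk, c3_mk] at h1 h2 h3 h4
  refine mem_R_of_coords (4 * n1 - 2 * n2 - 2 * n3 + n4)
    (2 * n2 - 2 * n1 - n4 + n3) (2 * n3 - 2 * n1 - n4 + n2) (n4 - n3 - n2 + n1) ?_ ?_ ?_ ?_
  all_goals push_cast
  all_goals rw [← h1, ← h2, ← h3, ← h4]
  all_goals ring

/-- a homomorphism to the circle, as an additive character -/
noncomputable def chi {D : Type*} [AddCommGroup D] (f : D →+ AddCircle (1 : ℝ)) : AddChar D ℂ where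
  toFun d := ((AddCircle.toCircle (f d) : Circle) : ℂ)
  map_zero_eq_one' := by simp
  map_add_eq_mul' a b := by simp [AddCircle.toCircle_add]

theorem chi_inj {D : Type*} [AddCommGroup D] {f g : D →+ AddCircle (1 : ℝ)} (h : chi f = chi g) :
    f = g := by
  ext d
  have h1 := DFunLike.congr_fun h d
  have h2 : ((AddCircle.toCircle (f d) : Circle) : ℂ) = ((AddCircle.toCircle (g d) : Circle) : ℂ) :=
    h1
  exact AddCircle.injective_toCircle one_ne_zero (Circle.ext h2)

/-- the number of homomorphisms to the circle separated by a set is at most the order -/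
theorem card_le_of_inj {G D : Type*} [AddCommGroup D] [Finite D]
    (F : G → (D →+ AddCircle (1 : ℝ))) (hF : Function.Injective F) :
    Finite G ∧ Nat.card G ≤ Nat.card D := by
  classical
  have := Fintype.ofFinite D
  have hi : Function.Injective (fun g => chi (F g)) := fun a b h => hF (chi_inj h)
  have : Finite (AddChar D ℂ) := inferInstance
  refine ⟨Finite.of_injective _ hi, ?_⟩
  calc Nat.card G ≤ Nat.card (AddChar D ℂ) := Nat.card_le_card_of_injective _ hi
    _ = Nat.card D := by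
      rw [Nat.card_eq_fintype_card, Nat.card_eq_fintype_card, AddChar.card_eq]

theorem re_mul_comm (a b : HK) : (a * b).re = (b * a).re := by
  rw [Quaternion.re_mul, Quaternion.re_mul]; ring

/-- the homomorphism `y ↦ lam (2 Re (x star y) / c)` modulo `1` -/
noncomputable def th (c : K) (J : AddSubgroup HK) (x : HK) : J →+ AddCircle (1 : ℝ) where
  toFun y := (((lam (2 * (x * star (y : HK)).re / c) : ℚ) : ℝ) : AddCircle (1 : ℝ))
  map_zero' := by
    have h : (x * star ((0 : J) : HK)).re = 0 := by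
      rw [AddSubgroup.coe_zero, star_zero, mul_zero]; rfl
    rw [h, mul_zero, zero_div, lam_zero]
    simp
  map_add' a b := by
    have : (2 * (x * star ((a + b : J) : HK)).re / c) =
        2 * (x * star (a : HK)).re / c + 2 * (x * star (b : HK)).re / c := by
      rw [AddSubgroup.coe_add, star_add, mul_add, Quaternion.re_add]; ring
    rw [this, lam_add]
    push_cast
    rfl

theorem coe_int_zero {q : ℚ} : (((q : ℝ)) : AddCircle (1 : ℝ)) = 0 ↔ ∃ n : ℤ, q = n := by
  rw [AddCircle.coe_eq_zero_iff]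
  constructor
  · rintro ⟨n, hn⟩
    refine ⟨n, ?_⟩
    have : (n : ℝ) = q := by simpa using hn
    exact_mod_cast this.symm
  · rintro ⟨n, rfl⟩
    exact ⟨n, by simp⟩

theorem t_CH : S_ICO → S_PID → S_CH := by
  rintro ⟨h1, hmul, hstar, hsmul, hnt, hdual, hnat, hvec, hvecm, hinj, hadd, hz0, hTP, hnm⟩
    ⟨hpid, hcard, hunit⟩ J ⟨hJO, hJ⟩ ⟨n, hn0, hnJ⟩
  -- the ideal of norms
  set I : Ideal R := Ideal.span {r : R | ∃ x ∈ J, (r : K) = Quaternion.normSq x} with hI
  obtain ⟨g, hg⟩ := (hpid.principal I).principal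
  have hg' : I = Ideal.span {g} := hg
  have hJsmul : ∀ r ∈ R, ∀ x ∈ J, r • x ∈ J := by
    intro r hr x hx
    have : r • x = (r • (1 : HK)) * x := by rw [smul_mul_assoc, one_mul]
    rw [this]
    exact hJ _ (hsmul r hr 1 h1) x hx
  have hg0 : (g : K) ≠ 0 := by
    intro h0
    have hgz : g = 0 := Subtype.ext h0
    have hmem : (⟨Quaternion.normSq ((n : HK)), (hnt _ (hJO hnJ)).1⟩ : R) ∈ I :=
      Ideal.subset_span ⟨_, hnJ, rfl⟩
    rw [hg', hgz, Ideal.mem_span_singleton, zero_dvd_iff] at hmem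
    have h2 : Quaternion.normSq ((n : HK)) = (0 : K) := congrArg Subtype.val hmem
    have h3 := hz0 _ h2
    have h4 : (n : HK) ≠ 0 := by
      intro h5
      have h6 := congrArg (fun q : HK => q.re) h5
      have h7 : ((n : K)) = 0 := h6
      exact hn0 (by exact_mod_cast h7)
    exact h4 h3
  obtain ⟨u, hu, v, hv, huv, hTPc⟩ := hunit (g : K) g.2 hg0
  have hu0 : u ≠ 0 := left_ne_zero_of_mul_eq_one huv
  set c : K := u * g with hc
  have hcR : c ∈ R := R.mul_mem hu g.2
  have hc0 : c ≠ 0 := mul_ne_zero hu0 hg0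
  -- (F1)
  have F1 : ∀ x ∈ J, ∃ z ∈ R, Quaternion.normSq x = c * z := by
    intro x hx
    have hmem : (⟨Quaternion.normSq x, (hnt _ (hJO hx)).1⟩ : R) ∈ I :=
      Ideal.subset_span ⟨_, hx, rfl⟩
    rw [hg', Ideal.mem_span_singleton] at hmem
    obtain ⟨s, hs⟩ := hmem
    refine ⟨v * s, R.mul_mem hv s.2, ?_⟩
    have hs' : Quaternion.normSq x = (g : K) * s := congrArg Subtype.val hs
    rw [hs', hc]
    linear_combination (-(g : K) * s) * huv
  -- (F2)
  have F2 : ∀ x0 : HK, (∀ y ∈ J, ∃ z ∈ OI, x0 * star y = c • z) → x0 ∈ J := by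
    intro x0 hx0
    have key : ∀ r ∈ I, ∃ w ∈ J, (r : K) • x0 = c • w := by
      intro r hr
      refine Submodule.span_induction (p := fun r _ => ∃ w ∈ J, ((r : R) : K) • x0 = c • w)
        ?_ ?_ ?_ ?_ hr
      · rintro r ⟨y, hy, hry⟩
        obtain ⟨z, hz, hxz⟩ := hx0 y hy
        refine ⟨z * y, hJ z hz y hy, ?_⟩
        rw [hry, ← smul_mul_assoc, ← hxz, mul_assoc, Quaternion.star_mul_self,
          Quaternion.mul_coe_eq_smul]
      · exact ⟨0, J.zero_mem, by simp⟩
      · rintro r s - - ⟨w, hw, hrw⟩ ⟨w', hw', hsw⟩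
        refine ⟨w + w', J.add_mem hw hw', ?_⟩
        rw [Subring.coe_add, add_smul, hrw, hsw, smul_add]
      · rintro a r - ⟨w, hw, hrw⟩
        refine ⟨(a : K) • w, hJsmul a a.2 w hw, ?_⟩
        rw [smul_eq_mul, Subring.coe_mul, mul_smul, hrw, smul_comm]
    have hcI : (⟨c, hcR⟩ : R) ∈ I := by
      rw [hg', Ideal.mem_span_singleton]
      exact ⟨⟨u, hu⟩, Subtype.ext (by simp [hc, mul_comm])⟩
    obtain ⟨w, hw, hcw⟩ := key _ hcI
    have : x0 = w := smul_right_injective HK hc0 hcw
    rw [this]; exact hw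
  -- (F3)
  have F3 : ∀ x ∈ J, ∀ y ∈ J, ∃ z ∈ OI, x * star y = c • z := by
    intro x hx y hy
    refine ⟨c⁻¹ • (x * star y), ?_, by rw [smul_smul, mul_inv_cancel₀ hc0, one_smul]⟩
    refine hdual _ ?_
    intro w hw
    obtain ⟨z1, hz1, e1⟩ := F1 _ (J.add_mem (hJ w hw x hx) hy)
    obtain ⟨z2, hz2, e2⟩ := F1 _ (hJ w hw x hx)
    obtain ⟨z3, hz3, e3⟩ := F1 _ hy
    have h2 : 2 * (c⁻¹ • (x * star y) * w).re = z1 - z2 - z3 := by
      rw [Quaternion.normSq_add, e2, e3] at e1
      have h5 : (c⁻¹ • (x * star y) * w).re = c⁻¹ * (w * x * star y).re := by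
        rw [smul_mul_assoc, Quaternion.re_smul, smul_eq_mul, re_mul_comm (x * star y) w, mul_assoc]
      rw [h5]
      have h6 : 2 * (w * x * star y).re = c * (z1 - z2 - z3) := by linear_combination e1
      calc 2 * (c⁻¹ * (w * x * star y).re) = c⁻¹ * (2 * (w * x * star y).re) := by ring
        _ = c⁻¹ * c * (z1 - z2 - z3) := by rw [h6]; ring
        _ = _ := by rw [inv_mul_cancel₀ hc0, one_mul]
    rw [h2]
    exact R.sub_mem (R.sub_mem hz1 hz2) hz3
  -- `c O ≤ J`
  have hcJ : cO c ≤ J := by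
    rintro _ ⟨z, hz, rfl⟩
    refine F2 _ ?_
    intro y hy
    exact ⟨z * star y, hmul z hz _ (hstar y (hJO hy)), by rw [smul_mul_assoc]⟩
  -- the index of `c O`
  have hcc : ((Nat.card (R ⧸ Ideal.span {(⟨c, hcR⟩ : R)}) : ℕ) : ℚ) = |nm c| :=
    hcard ⟨c, hcR⟩ (fun h => hc0 (congrArg Subtype.val h))
  have hnmc : nm c ≠ 0 := by
    intro h
    have h5 := hnm c c⁻¹
    rw [h, zero_mul, mul_inv_cancel₀ hc0, ← mkK_one] at h5
    norm_num [nm] at h5
  have hfin : Finite (R ⧸ Ideal.span {(⟨c, hcR⟩ : R)}) := by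
    refine Nat.finite_of_card_ne_zero ?_
    intro h
    rw [h] at hcc
    exact hnmc (abs_eq_zero.mp (by rw [← hcc]; simp))
  have hidx : (cO c).relIndex OI ≠ 0 ∧ (((cO c).relIndex OI : ℕ) : ℚ) ≤ |nm c| ^ 4 := by
    set A := (Fin 4 → (R ⧸ Ideal.span {(⟨c, hcR⟩ : R)})) with hA
    have hmemO : ∀ q : A, (∑ m, ((Quotient.out (q m) : R) : K) • e m) ∈ OI := fun q =>
      ⟨fun m => ((Quotient.out (q m) : R) : K), fun m => (Quotient.out (q m) : R).2, rfl⟩
    let f : A → OI ⧸ (cO c).addSubgroupOf OI := fun q => QuotientAddGroup.mk ⟨_, hmemO q⟩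
    have hf : Function.Surjective f := by
      intro y
      induction y using QuotientAddGroup.induction_on with
      | H y =>
        obtain ⟨r, hr, hy⟩ := y.2
        refine ⟨fun m => Ideal.Quotient.mk _ ⟨r m, hr m⟩, ?_⟩
        refine (QuotientAddGroup.eq).mpr ?_
        rw [AddSubgroup.mem_addSubgroupOf]
        have hs : ∀ m, ∃ s ∈ R, r m - ((Quotient.out (Ideal.Quotient.mk
            (Ideal.span {(⟨c, hcR⟩ : R)}) ⟨r m, hr m⟩) : R) : K) = c * s := by
          intro m
          have h5 : (Ideal.Quotient.mk (Ideal.span {(⟨c, hcR⟩ : R)})) (⟨r m, hr m⟩ : R) =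
              (Ideal.Quotient.mk (Ideal.span {(⟨c, hcR⟩ : R)})) (Quotient.out (Ideal.Quotient.mk
            (Ideal.span {(⟨c, hcR⟩ : R)}) ⟨r m, hr m⟩)) := (Quotient.out_eq' _).symm
          rw [Ideal.Quotient.eq, Ideal.mem_span_singleton] at h5
          obtain ⟨s, hs⟩ := h5
          exact ⟨s, s.2, congrArg Subtype.val hs⟩
        choose s hsR hs using hs
        refine ⟨∑ m, s m • e m, ⟨s, hsR, rfl⟩, ?_⟩
        push_cast
        rw [hy, Finset.smul_sum, neg_add_eq_sub, ← Finset.sum_sub_distrib]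
        refine Finset.sum_congr rfl fun m _ => ?_
        rw [← sub_smul, hs m, mul_smul]
    have : Finite (OI ⧸ (cO c).addSubgroupOf OI) := Finite.of_surjective f hf
    refine ⟨?_, ?_⟩
    · have : Nat.card (OI ⧸ (cO c).addSubgroupOf OI) ≠ 0 := Nat.card_pos.ne'
      exact this
    · have h5 : Nat.card (OI ⧸ (cO c).addSubgroupOf OI) ≤ Nat.card A :=
        Nat.card_le_card_of_surjective f hf
      have h6 : Nat.card A = Nat.card (R ⧸ Ideal.span {(⟨c, hcR⟩ : R)}) ^ 4 := by
        rw [hA, Nat.card_fun]; simp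
      rw [h6] at h5
      rw [← hcc]
      exact_mod_cast h5
  have hmulidx := AddSubgroup.relIndex_mul_relIndex (cO c) J OI hcJ hJO
  have hJ0 : J.relIndex OI ≠ 0 := by
    intro h; rw [h, mul_zero] at hmulidx; exact hidx.1 hmulidx.symm
  have hk0 : (cO c).relIndex J ≠ 0 := by
    intro h; rw [h, zero_mul] at hmulidx; exact hidx.1 hmulidx.symm
  -- duality
  have hdualidx : J.relIndex OI ≤ (cO c).relIndex J := by
    have : Finite (J ⧸ (cO c).addSubgroupOf J) := Nat.finite_of_card_ne_zero hk0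
    have hker : ∀ x ∈ OI, (cO c).addSubgroupOf J ≤ (th c J x).ker := by
      rintro x hx ⟨y, hyJ⟩ hy
      rw [AddSubgroup.mem_addSubgroupOf] at hy
      obtain ⟨z, hz, hyz⟩ := hy
      rw [AddMonoidHom.mem_ker]
      change (((lam (2 * (x * star y).re / c) : ℚ) : ℝ) : AddCircle (1 : ℝ)) = 0
      rw [coe_int_zero]
      have hyz' : y = c • z := hyz
      have h5 : 2 * (x * star y).re / c = 2 * (x * star z).re := by
        rw [hyz', Quaternion.star_smul, mul_smul_comm, Quaternion.re_smul, smul_eq_mul]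
        field_simp
      rw [h5]
      exact lam_int (hnt _ (hmul x hx _ (hstar z hz))).2
    let F : (OI ⧸ J.addSubgroupOf OI) → ((J ⧸ (cO c).addSubgroupOf J) →+ AddCircle (1 : ℝ)) :=
      fun q => QuotientAddGroup.lift _ (th c J (Quotient.out q : OI))
        (hker _ (Quotient.out q : OI).2)
    have hF : Function.Injective F := by
      intro q q' hqq
      have h5 : ∀ y : J, th c J (Quotient.out q : OI) y = th c J (Quotient.out q' : OI) y := by
        intro y
        have h6 := DFunLike.congr_fun hqq (QuotientAddGroup.mk y)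
        exact h6
      have h7 : ((Quotient.out q : OI) : HK) - ((Quotient.out q' : OI) : HK) ∈ J := by
        refine F2 _ ?_
        set x0 : HK := ((Quotient.out q : OI) : HK) - ((Quotient.out q' : OI) : HK) with hx0
        have h8 : ∀ y ∈ J, ∃ m : ℤ, lam (2 * (x0 * star y).re / c) = m := by
          intro y hy
          have h9 := h5 ⟨y, hy⟩
          have h10 : (((lam (2 * (x0 * star y).re / c) : ℚ) : ℝ) : AddCircle (1 : ℝ)) = 0 := by
            have h11 : 2 * (x0 * star y).re / c = 2 * (((Quotient.out q : OI) : HK) * star y).re / c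
                - 2 * (((Quotient.out q' : OI) : HK) * star y).re / c := by
              rw [hx0, sub_mul, Quaternion.re_sub]; ring
            rw [h11, lam_sub]
            push_cast
            rw [AddCircle.coe_sub, sub_eq_zero]
            exact h9
          exact coe_int_zero.mp h10
        have h9 : ∀ y ∈ J, 2 * (x0 * star y).re / c ∈ R := by
          intro y hy
          refine lam_dual ?_
          intro r hr
          obtain ⟨m, hm⟩ := h8 (r • y) (hJsmul r hr y hy)
          refine ⟨m, ?_⟩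
          rw [← hm]
          congr 1
          rw [Quaternion.star_smul, mul_smul_comm, Quaternion.re_smul, smul_eq_mul]
          ring
        intro y hy
        refine ⟨c⁻¹ • (x0 * star y), ?_, by rw [smul_smul, mul_inv_cancel₀ hc0, one_smul]⟩
        refine hdual _ ?_
        intro w hw
        have h10 := h9 (star w * y) (hJ _ (hstar w hw) y hy)
        have h11 : 2 * (c⁻¹ • (x0 * star y) * w).re = 2 * (x0 * star (star w * y)).re / c := by
          rw [star_mul, star_star, smul_mul_assoc, Quaternion.re_smul, smul_eq_mul, mul_assoc]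
          ring
        rw [h11]; exact h10
      have h8 : (QuotientAddGroup.mk (Quotient.out q' : OI) : OI ⧸ J.addSubgroupOf OI) =
          QuotientAddGroup.mk (Quotient.out q : OI) := by
        refine (QuotientAddGroup.eq).mpr ?_
        rw [AddSubgroup.mem_addSubgroupOf]
        push_cast
        rw [neg_add_eq_sub]
        exact h7
      have h9 : (QuotientAddGroup.mk (Quotient.out q : OI) : OI ⧸ J.addSubgroupOf OI) = q :=
        Quotient.out_eq' q
      have h10 : (QuotientAddGroup.mk (Quotient.out q' : OI) : OI ⧸ J.addSubgroupOf OI) = q' :=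
        Quotient.out_eq' q'
      rw [← h9, ← h10, h8]
    exact (card_le_of_inj F hF).2
  refine ⟨c, hcR, hTPc, F3, hJ0, ?_⟩
  have h5 : ((J.relIndex OI : ℕ) : ℚ) ^ 2 ≤ (nm c ^ 2) ^ 2 := by
    calc ((J.relIndex OI : ℕ) : ℚ) ^ 2 ≤ ((cO c).relIndex J : ℚ) * (J.relIndex OI : ℚ) := by
          rw [sq]
          exact mul_le_mul_of_nonneg_right (by exact_mod_cast hdualidx) (by positivity)
      _ = (((cO c).relIndex OI : ℕ) : ℚ) := by exact_mod_cast hmulidx
      _ ≤ |nm c| ^ 4 := hidx.2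
      _ = (nm c ^ 2) ^ 2 := by rw [← pow_mul, ← abs_pow, abs_of_nonneg (by positivity)]
  exact (pow_le_pow_iff_left₀ (by positivity) (by positivity) two_ne_zero).mp h5

end Pool.Agent.U851.TU.CH
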